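import Pool.Agent.H821.AM.Pol
import Pool.Graph.R_seed8.H629R2.HT.Fin

/-!
# The Mahler input for the Holmes-Thompson volume in dimension three
-/

set_option autoImplicit false

namespace Pool.Agent.H613.HT

open MeasureTheory Set Matrix Pool.Agent.H629R2.HT
open scoped Pointwise ENNReal

theorem comb_eq {K : Set (Fin 3 → ℝ)} {s : ℝ} (h0 : 0 ≤ s) (h1 : s ≤ 1 / 2) :
    (1 - s) • K - s • K = (1 - s) • ms K (ng K) (s / (1 - s)) := by
  have hs : (1 - s) ≠ 0 := by linarith
  ext x
  constructor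
  · rintro ⟨_, ⟨y, hy, rfl⟩, _, ⟨z, hz, rfl⟩, rfl⟩
    refine ⟨y + (s / (1 - s)) • (-z), ⟨y, hy, -z, ?_, rfl⟩, ?_⟩
    · show - -z ∈ K
      rwa [neg_neg]
    · show (1 - s) • (y + (s / (1 - s)) • (-z)) = (1 - s) • y - s • z
      rw [smul_add, smul_smul, mul_div_cancel₀ _ hs, smul_neg, ← sub_eq_add_neg]
  · rintro ⟨_, ⟨y, hy, z, hz, rfl⟩, rfl⟩
    refine ⟨(1 - s) • y, ⟨y, hy, rfl⟩, s • (-z), ⟨-z, hz, rfl⟩, ?_⟩
    show (1 - s) • y - s • (-z) = (1 - s) • (y + (s / (1 - s)) • z)
    rw [smul_add, smul_smul, mul_div_cancel₀ _ hs, smul_neg, sub_neg_eq_add]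

theorem vol_le_half {K : Set (Fin 3 → ℝ)} (hK : CB K) {C : ℝ}
    (hC : ∀ b : ℝ, 0 ≤ b → b ≤ 1 → V (ms K (ng K) b) ≤ V K * (1 + b ^ 3) + C * (b + b ^ 2))
    {s : ℝ} (h0 : 0 ≤ s) (h1 : s ≤ 1 / 2) :
    volume ((1 - s) • K - s • K) ≤
      ENNReal.ofReal (V K * ((1 - s) ^ 3 + s ^ 3) + C * (s * (1 - s))) := by
  have hs : (1 - s) ≠ 0 := by linarith
  have hs' : 0 < 1 - s := by linarith
  have hb0 : 0 ≤ s / (1 - s) := div_nonneg h0 hs'.le
  have hb1 : s / (1 - s) ≤ 1 := by
    rw [div_le_one hs']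
    linarith
  have hfin : volume (ms K (ng K) (s / (1 - s))) ≠ ⊤ :=
    (isCompact_ms hK.comp (CB_ng hK).comp _).measure_lt_top.ne
  rw [comb_eq h0 h1, Measure.addHaar_smul, ← ofReal_V hfin, ← ENNReal.ofReal_mul (by positivity)]
  apply ENNReal.ofReal_le_ofReal
  simp only [Module.finrank_fintype_fun_eq_card, Fintype.card_fin]
  rw [abs_of_pos (by positivity)]
  refine (mul_le_mul_of_nonneg_left (hC _ hb0 hb1) (by positivity)).trans_eq ?_
  field_simp
  ring

theorem vol_le_all {K : Set (Fin 3 → ℝ)} (hK : CB K) {C : ℝ}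
    (hC : ∀ b : ℝ, 0 ≤ b → b ≤ 1 → V (ms K (ng K) b) ≤ V K * (1 + b ^ 3) + C * (b + b ^ 2))
    {s : ℝ} (hs : s ∈ Icc (0 : ℝ) 1) :
    volume ((1 - s) • K - s • K) ≤
      ENNReal.ofReal (V K * ((1 - s) ^ 3 + s ^ 3) + C * (s * (1 - s))) := by
  rcases le_total s (1 / 2) with h | h
  · exact vol_le_half hK hC hs.1 h
  · have h1 := vol_le_half hK hC (s := 1 - s) (by linarith [hs.2]) (by linarith)
    have h2 : (1 - s) • K - s • K = -((1 - (1 - s)) • K - (1 - s) • K) := by
      rw [neg_sub, sub_sub_cancel]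
    rw [h2, Measure.measure_neg]
    refine h1.trans_eq ?_
    congr 1
    ring

theorem vol_po_ne_top {K : Set (Fin 3 → ℝ)} (hK : CB K) : volume (po (df K)) ≠ ⊤ := by
  obtain ⟨x, hx⟩ := hK.int
  obtain ⟨r, hr, hrK⟩ := Metric.mem_nhds_iff.1 (mem_interior_iff_mem_nhds.1 hx)
  have hsub : po (df K) ⊆ Icc (fun _ => -(2 / r)) (fun _ => 2 / r) := by
    intro u hu
    have hx0 : x ∈ K := interior_subset hx
    have key : ∀ (i : Fin 3) (c : ℝ), |c| = r / 2 → c * u i ≤ 1 := by
      intro i c hc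
      have hm : x + Pi.single i c ∈ K := by
        apply hrK
        rw [Metric.mem_ball, dist_eq_norm, add_sub_cancel_left, Pi.norm_single, Real.norm_eq_abs, hc]
        linarith
      have := hu (Pi.single i c) ⟨_, hm, x, hx0, by simp⟩
      rwa [single_dotProduct] at this
    constructor
    · intro i
      have := key i (-(r / 2)) (by rw [abs_neg, abs_of_pos (by positivity)])
      show -(2 / r) ≤ u i
      rw [neg_le, le_div_iff₀ hr]
      linarith
    · intro i
      have := key i (r / 2) (abs_of_pos (by positivity))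
      show u i ≤ 2 / r
      rw [le_div_iff₀ hr]
      linarith
  exact ((measure_mono hsub).trans_lt isCompact_Icc.measure_lt_top).ne

theorem S_mah_proof : S_mah := by
  intro K hK C hC
  have h1 := Pool.Agent.H821.AM.asym hK.comp hK.conv hK.int
  have hpo : Pool.Agent.H821.AM.dpol K = po (df K) := by
    ext u
    constructor
    · rintro h _ ⟨x, hx, y, hy, rfl⟩
      exact h x hx y hy
    · intro h x hx y hy
      exact h _ ⟨x, hx, y, hy, rfl⟩
  rw [hpo] at h1
  have hpos : ∀ s ∈ Icc (0 : ℝ) 1, 0 ≤ V K * ((1 - s) ^ 3 + s ^ 3) + C * (s * (1 - s)) := by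
    intro s hs
    by_contra hneg
    push Not at hneg
    have h2 := vol_le_all hK hC hs
    rw [ENNReal.ofReal_of_nonpos hneg.le] at h2
    obtain ⟨x, hx⟩ := hK.int
    have hx0 := interior_subset hx
    rcases le_total s (1 / 2) with h | h
    · have h3 : (fun z => -(s • x) + z) '' ((1 - s) • K) ⊆ (1 - s) • K - s • K := by
        rintro _ ⟨z, hz, rfl⟩
        exact ⟨z, hz, s • x, ⟨x, hx0, rfl⟩, by ring⟩
      have h4 := (measure_mono h3).trans h2
      rw [image_add_left, measure_preimage_add, Measure.addHaar_smul] at h4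
      have h5 : volume K ≠ 0 := (Measure.measure_pos_of_nonempty_interior volume hK.int).ne'
      have h6 : (0 : ℝ) < |(1 - s) ^ Module.finrank ℝ (Fin 3 → ℝ)| := by
        have : 0 < 1 - s := by linarith
        positivity
      exact (mul_ne_zero (ENNReal.ofReal_pos.2 h6).ne' h5) (le_antisymm h4 (zero_le))
    · have h3 : (fun z => (1 - s) • x + z) '' (-(s • K)) ⊆ (1 - s) • K - s • K := by
        rintro _ ⟨z, hz, rfl⟩
        exact ⟨(1 - s) • x, ⟨x, hx0, rfl⟩, -z, hz, by simp⟩
      have h4 := (measure_mono h3).trans h2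
      rw [image_add_left, measure_preimage_add, Measure.measure_neg, Measure.addHaar_smul] at h4
      have h5 : volume K ≠ 0 := (Measure.measure_pos_of_nonempty_interior volume hK.int).ne'
      have h6 : (0 : ℝ) < |s ^ Module.finrank ℝ (Fin 3 → ℝ)| := by
        have : 0 < s := by linarith
        positivity
      exact (mul_ne_zero (ENNReal.ofReal_pos.2 h6).ne' h5) (le_antisymm h4 (zero_le))
  have h2 : Pool.Agent.H821.AM.meanVol K ≤ ENNReal.ofReal ((V K + C / 3) / 2) := by
    unfold Pool.Agent.H821.AM.meanVol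
    refine (setLIntegral_mono_ae ?_ (ae_of_all _ fun s hs => vol_le_all hK hC hs)).trans_eq ?_
    · fun_prop
    · rw [← ofReal_integral_eq_lintegral_ofReal]
      · congr 1
        rw [integral_Icc_eq_integral_Ioc, ← intervalIntegral.integral_of_le zero_le_one]
        have hd : ∀ s ∈ uIcc (0 : ℝ) 1, HasDerivAt
            (fun s : ℝ => V K * (s - 3 / 2 * s ^ 2 + s ^ 3) + C * (s ^ 2 / 2 - s ^ 3 / 3))
            (V K * ((1 - s) ^ 3 + s ^ 3) + C * (s * (1 - s))) s := by
          intro s _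
          have e2 := hasDerivAt_pow 2 s
          have e3 := hasDerivAt_pow 3 s
          have := ((((hasDerivAt_id s).sub (e2.const_mul (3 / 2))).add e3).const_mul (V K)).add
            (((e2.div_const 2).sub (e3.div_const 3)).const_mul C)
          refine this.congr_deriv ?_
          simp
          ring
        rw [intervalIntegral.integral_eq_sub_of_hasDerivAt hd
          (Continuous.intervalIntegrable (by fun_prop) _ _)]
        norm_num
        ring
      · exact (Continuous.integrableOn_Icc (by fun_prop))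
      · exact (ae_restrict_iff' measurableSet_Icc).2 (ae_of_all _ fun s hs => hpos s hs)
  have h3 := h1.trans (mul_le_mul_right h2 (volume (po (df K))))
  have hq : 0 ≤ (V K + C / 3) / 2 := by
    by_contra hneg
    push Not at hneg
    rw [ENNReal.ofReal_of_nonpos hneg.le, mul_zero] at h3
    have : (0 : ℝ) < 2 ^ 3 / (Nat.factorial 3 : ℕ) := by norm_num [Nat.factorial]
    exact absurd (le_antisymm h3 (zero_le)) (ENNReal.ofReal_pos.2 this).ne'
  rw [← ofReal_V (vol_po_ne_top hK), ← ENNReal.ofReal_mul (V_nonneg _),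
    ENNReal.ofReal_le_ofReal_iff (mul_nonneg (V_nonneg _) hq)] at h3
  norm_num [Nat.factorial] at h3
  linarith

end Pool.Agent.H613.HT
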